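import Pool.Agent.H71.CNS.TW

/-!
# Row PZ6 of the board `cns`
-/

set_option autoImplicit false

namespace Pool.CND
namespace PZ6

/-- separation of points by homomorphisms to `ℤ / n` -/
theorem sep (Q : Type) [CommGroup Q] [Finite Q] (n : ℕ) [NeZero n] (hQ : ∀ a : Q, a ^ n = 1)
    (a : Q) (ha : a ≠ 1) : ∃ φ : Q →* Multiplicative (ZMod n), φ a ≠ 1 := by
  have : HasEnoughRootsOfUnity (Multiplicative (ZMod n)) n := by
    refine ⟨⟨Multiplicative.ofAdd 1, ?_⟩, ?_⟩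
    · have h1 : orderOf (Multiplicative.ofAdd (1 : ZMod n)) = n := by
        rw [orderOf_ofAdd_eq_addOrderOf, ZMod.addOrderOf_one]
      have h2 := IsPrimitiveRoot.orderOf (Multiplicative.ofAdd (1 : ZMod n))
      rwa [h1] at h2
    · have : IsCyclic (Multiplicative (ZMod n)) := inferInstance
      have : IsCyclic (Multiplicative (ZMod n))ˣ :=
        (toUnits (G := Multiplicative (ZMod n))).isCyclic.1 inferInstance
      exact Subgroup.isCyclic _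
  have : HasEnoughRootsOfUnity (Multiplicative (ZMod n)) (Monoid.exponent Q) :=
    HasEnoughRootsOfUnity.of_dvd _ (n := n) (Monoid.exponent_dvd_of_forall_pow_eq_one hQ)
  obtain ⟨φ, hφ⟩ := CommGroup.exists_apply_ne_one_of_hasEnoughRootsOfUnity Q
    (Multiplicative (ZMod n)) ha
  refine ⟨(Units.coeHom _).comp φ, ?_⟩
  intro h
  exact hφ (Units.ext h)

/-- an element `u` of `ℤ / p ^ 2` with `p u ≠ 0` generates -/
theorem gen (p : ℕ) (hp : p.Prime) (u : ZMod (p ^ 2)) (hu : (p : ZMod (p ^ 2)) * u ≠ 0)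
    (v : ZMod (p ^ 2)) : ∃ n : ℕ, (n : ZMod (p ^ 2)) * u = v := by
  have : NeZero (p ^ 2) := ⟨pow_ne_zero 2 hp.ne_zero⟩
  have h1 : Nat.Coprime u.val (p ^ 2) := by
    apply Nat.Coprime.pow_right
    rw [Nat.coprime_comm, Nat.Prime.coprime_iff_not_dvd hp]
    rintro ⟨m, hm⟩
    apply hu
    have h2 : u = ((p * m : ℕ) : ZMod (p ^ 2)) := by rw [← hm, ZMod.natCast_zmod_val]
    rw [h2, ← Nat.cast_mul, ZMod.natCast_eq_zero_iff]
    exact ⟨m, by ring⟩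
  have h2 : IsUnit u := by
    have := (ZMod.isUnit_iff_coprime u.val (p ^ 2)).2 h1
    rwa [ZMod.natCast_zmod_val] at this
  obtain ⟨w, hw⟩ := h2.exists_left_inv
  refine ⟨(v * w).val, ?_⟩
  rw [ZMod.natCast_zmod_val, mul_assoc, hw, mul_one]

section

variable {p : ℕ} {G : Type} [Group G]

/-- the character of order `p ^ 2` -/
theorem theta [Finite G] (hp : p.Prime) (H : Subgroup G) (Ω y : G → ZMod p)
    (hΩ : ∀ a ∈ H, ∀ b ∈ H, Ω (a * b) = Ω a + Ω b)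
    (hcomm : ∀ a b : G, a * b * a⁻¹ * b⁻¹ ∈ H ∧ Ω (a * b * a⁻¹ * b⁻¹) = 0)
    (hpow : ∀ a : G, a ^ p ∈ H ∧ Ω (a ^ p) = y a) (hyH : ∀ a ∈ H, y a = 0)
    (a₀ : G) (ha₀ : y a₀ ≠ 0) : ∃ θ : G → ZMod (p ^ 2), (∀ g h : G, θ (g * h) = θ g + θ h) ∧
      Function.Surjective θ ∧ ∀ g : G, y g = 0 ↔ (p : ZMod (p ^ 2)) * θ g = 0 := by
  have := Fact.mk hp
  have : NeZero (p ^ 2) := ⟨pow_ne_zero 2 hp.ne_zero⟩
  have hΩ1 : Ω 1 = 0 := by
    have := hΩ 1 H.one_mem 1 H.one_mem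
    rw [mul_one] at this
    simpa using this
  have hΩi : ∀ a ∈ H, Ω a⁻¹ = - Ω a := by
    intro a ha
    have := hΩ a ha a⁻¹ (H.inv_mem ha)
    rw [mul_inv_cancel, hΩ1] at this
    exact (neg_eq_of_add_eq_zero_right this.symm).symm
  have hΩn : ∀ a ∈ H, ∀ n : ℕ, Ω (a ^ n) = n * Ω a := by
    intro a ha n
    induction n with
    | zero => simpa using hΩ1
    | succ n ih =>
      rw [pow_succ, hΩ _ (H.pow_mem ha n) _ ha, ih]
      push_cast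
      ring
  let K : Subgroup G :=
    { carrier := {a | a ∈ H ∧ Ω a = 0}
      one_mem' := ⟨H.one_mem, hΩ1⟩
      mul_mem' := by
        rintro a b ⟨ha, ha'⟩ ⟨hb, hb'⟩
        exact ⟨H.mul_mem ha hb, by rw [hΩ a ha b hb, ha', hb', add_zero]⟩
      inv_mem' := by
        rintro a ⟨ha, ha'⟩
        exact ⟨H.inv_mem ha, by rw [hΩi a ha, ha', neg_zero]⟩ }
  have hK : ∀ a, a ∈ K ↔ a ∈ H ∧ Ω a = 0 := fun a => Iff.rfl
  have hKn : K.Normal := by
    refine ⟨fun h hh g => ?_⟩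
    obtain ⟨h1, h2⟩ := (hK h).1 hh
    obtain ⟨c1, c2⟩ := hcomm g h
    have e : g * h * g⁻¹ = (g * h * g⁻¹ * h⁻¹) * h := by group
    rw [hK, e]
    exact ⟨H.mul_mem c1 h1, by rw [hΩ _ c1 _ h1, c2, h2, add_zero]⟩
  let _ : CommGroup (G ⧸ K) :=
    { (inferInstance : Group (G ⧸ K)) with
      mul_comm := by
        intro a b
        obtain ⟨a, rfl⟩ := QuotientGroup.mk_surjective a
        obtain ⟨b, rfl⟩ := QuotientGroup.mk_surjective b
        rw [← QuotientGroup.mk_mul, ← QuotientGroup.mk_mul, QuotientGroup.eq]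
        have := hcomm (b⁻¹) (a⁻¹)
        have e : (a * b)⁻¹ * (b * a) = b⁻¹ * a⁻¹ * b⁻¹⁻¹ * a⁻¹⁻¹ := by group
        rw [e]
        exact (hK _).2 this }
  have hexp : ∀ a : G ⧸ K, a ^ (p ^ 2) = 1 := by
    intro a
    obtain ⟨a, rfl⟩ := QuotientGroup.mk_surjective a
    rw [← QuotientGroup.mk_pow, QuotientGroup.eq_one_iff, hK, pow_two, pow_mul]
    refine ⟨H.pow_mem (hpow a).1 p, ?_⟩
    rw [hΩn _ (hpow a).1]
    simp
  have hne : ((a₀ ^ p : G) : G ⧸ K) ≠ 1 := by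
    intro h
    rw [QuotientGroup.eq_one_iff, hK, (hpow a₀).2] at h
    exact ha₀ h.2
  obtain ⟨φ, hφ⟩ := sep (G ⧸ K) (p ^ 2) hexp _ hne
  let θ : G → ZMod (p ^ 2) := fun g => Multiplicative.toAdd (φ (g : G ⧸ K))
  have hθm : ∀ g h : G, θ (g * h) = θ g + θ h := by
    intro g h
    change Multiplicative.toAdd (φ ((g * h : G) : G ⧸ K)) = _
    rw [QuotientGroup.mk_mul, map_mul, toAdd_mul]
  have hθn : ∀ (g : G) (n : ℕ), θ (g ^ n) = n * θ g := by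
    intro g n
    change Multiplicative.toAdd (φ ((g ^ n : G) : G ⧸ K)) = _
    rw [QuotientGroup.mk_pow, map_pow, toAdd_pow, nsmul_eq_mul]
  have hθK : ∀ g ∈ K, θ g = 0 := by
    intro g hg
    change Multiplicative.toAdd (φ (g : G ⧸ K)) = _
    rw [(QuotientGroup.eq_one_iff g).2 hg, map_one, toAdd_one]
  have hθ0 : (p : ZMod (p ^ 2)) * θ a₀ ≠ 0 := by
    rw [← hθn]
    intro h
    exact hφ (Multiplicative.toAdd.injective h)
  refine ⟨θ, hθm, ?_, ?_⟩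
  · intro v
    obtain ⟨n, hn⟩ := gen p hp _ hθ0 v
    exact ⟨a₀ ^ n, by rw [hθn, hn]⟩
  · intro g
    constructor
    · intro h
      rw [← hθn]
      exact hθK _ ((hK _).2 ⟨(hpow g).1, by rw [(hpow g).2, h]⟩)
    · intro h
      by_contra hg
      apply hθ0
      let s : ℕ := (y a₀ * (y g)⁻¹).val
      have hs : (s : ZMod p) * y g = y a₀ := by
        rw [ZMod.natCast_zmod_val, mul_assoc, inv_mul_cancel₀ hg, mul_one]
      have h1 : (g ^ p) ^ s * (a₀ ^ p)⁻¹ ∈ K := by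
        rw [hK]
        refine ⟨H.mul_mem (H.pow_mem (hpow g).1 s) (H.inv_mem (hpow a₀).1), ?_⟩
        rw [hΩ _ (H.pow_mem (hpow g).1 s) _ (H.inv_mem (hpow a₀).1), hΩn _ (hpow g).1,
          hΩi _ (hpow a₀).1, (hpow g).2, (hpow a₀).2, hs, add_neg_cancel]
      have h2 := hθK _ h1
      have h3 := hθm ((g ^ p) ^ s * (a₀ ^ p)⁻¹) (a₀ ^ p)
      rw [inv_mul_cancel_right, h2, zero_add, hθn, hθn, hθn, h, mul_zero] at h3
      exact h3.symm

end

end PZ6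

open PZ6 in
theorem pz6_thm (hPZ5 : S_PZ5) (hALT : S_ALT) (hTWG : S_TWG) (hASG : S_ASG) (hTWC : S_TWC)
    (hTWB : S_TWB) (hCYU : S_CYU) (hQCC : S_QCC) (hCJC : S_CJC) (hCUQ : S_CUQ) (hCNV : S_CNV)
    (hEXI : S_EXI) (hASD : S_ASD) (hPTR : S_PTR) (hWLD : S_WLD) : S_PZ6 := by
  classical
  intro p k L G _ _ _ _ _ _ _ ρ t P c y Y f hp hp2 hPC hcov hP hc hy hy0 hyne hYf hYa hf1 hfp
  have := Fact.mk hp
  -- the largest degree
  let S : Set ℕ := {D | ∃ (y : G → ZMod p) (Y : L) (f : Polynomial k),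
    (∀ g h : G, y (g * h) = y g + y h) ∧ (∀ g ∈ Subgroup.center G, y g = 0) ∧
    (∃ g : G, y g ≠ 0) ∧ Y ^ p - Y = Polynomial.aeval t f ∧
    (∀ g : G, ρ g Y = Y + algebraMap k L (fp k (y g))) ∧ 1 ≤ f.natDegree ∧ ¬ p ∣ f.natDegree ∧
    f.natDegree = D}
  have hSb : ∀ D ∈ S, (D : ℚ) ≤ c := by
    rintro D ⟨y, Y, f, h1, h2, h3, h4, h5, h6, h7, rfl⟩
    exact (hASD p k L G ρ t P c y Y f hp hPC.card hcov hP hc h1 h4 h5 h3 h6 h7).1
  have hSn : S.Nonempty := ⟨f.natDegree, y, Y, f, hy, hy0, hyne, hYf, hYa, hf1, hfp, rfl⟩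
  have hSba : BddAbove S := by
    refine ⟨⌊c⌋₊, fun D hD => Nat.le_floor (hSb D hD)⟩
  have hAm : sSup S ∈ S := Nat.sSup_mem hSn hSba
  have hAle : ∀ D ∈ S, D ≤ sSup S := fun D hD => le_csSup hSba hD
  generalize sSup S = A at hAm hAle
  have hfA : f.natDegree ≤ A := hAle _ ⟨y, Y, f, hy, hy0, hyne, hYf, hYa, hf1, hfp, rfl⟩
  obtain ⟨y₁, Y₁, f₁, hy₁, hy₁0, ⟨g₀, hg₀⟩, hYf₁, hYa₁, hf₁1, hf₁p, hf₁A⟩ := hAm
  suffices hmain : (p : ℚ) * A ≤ c by
    refine le_trans ?_ hmain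
    exact mul_le_mul_of_nonneg_left (by exact_mod_cast hfA) (Nat.cast_nonneg p)
  have hA1 : 1 ≤ A := by rw [← hf₁A]; exact hf₁1
  obtain ⟨χ, hχ, hχp⟩ := hPZ5 p G y₁ hp hp2 hPC hy₁ hy₁0
  have hcm := hPC.comm
  have hχ1 : χ 1 = 0 := by
    have := hχ 1 (Subgroup.one_mem _) 1 (Subgroup.one_mem _)
    rw [mul_one] at this
    simpa using this
  -- commutators with central values
  have hcen : ∀ a ∈ Subgroup.center G, ∀ b : G, b * a = a * b := fun a ha b =>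
    Subgroup.mem_center_iff.1 ha b
  have hω₁ : ∀ a b c : G, χ (a * b * c * (a * b)⁻¹ * c⁻¹) =
      χ (a * c * a⁻¹ * c⁻¹) + χ (b * c * b⁻¹ * c⁻¹) := by
    intro a b c
    rw [← hχ _ (hcm a c) _ (hcm b c)]
    have h1 := hcen _ (hcm b c) a
    have e : a * b * c * (a * b)⁻¹ * c⁻¹ = a * (b * c * b⁻¹ * c⁻¹) * c * a⁻¹ * c⁻¹ := by group
    rw [e, h1]
    have h2 := hcen _ (hcm b c) (a * c * a⁻¹ * c⁻¹)
    rw [h2]
    congr 1
    group
  have hω₂ : ∀ a b c : G, χ (a * (b * c) * a⁻¹ * (b * c)⁻¹) =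
      χ (a * b * a⁻¹ * b⁻¹) + χ (a * c * a⁻¹ * c⁻¹) := by
    intro a b c
    rw [← hχ _ (hcm a b) _ (hcm a c)]
    have h1 := hcen _ (hcm a c) b
    have e : a * (b * c) * a⁻¹ * (b * c)⁻¹ =
        a * b * a⁻¹ * (a * c * a⁻¹ * c⁻¹) * b⁻¹ := by group
    have h2 := hcen _ (hcm a c) b⁻¹
    rw [e, mul_assoc (a * b * a⁻¹), ← h2, ← mul_assoc]
  have hω₃ : ∀ a : G, χ (a * a * a⁻¹ * a⁻¹) = 0 := by
    intro a
    have e : a * a * a⁻¹ * a⁻¹ = 1 := by group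
    rw [e, hχ1]
  have hω₄ : ∀ a ∈ Subgroup.center G, ∀ b : G, χ (a * b * a⁻¹ * b⁻¹) = 0 := by
    intro a ha b
    rw [← hcen a ha b]
    have e : b * a * a⁻¹ * b⁻¹ = 1 := by group
    rw [e, hχ1]
  obtain ⟨G', _, _, L', _, _, ρ', π, z, γ, j, P', c', l, hT⟩ :=
    exists_twOut hALT hTWG hASG hTWC hTWB hEXI hPTR hWLD hCNV hQCC hCJC hCUQ p A k L G ρ t P c
      (fun a b => χ (a * b * a⁻¹ * b⁻¹)) hp hPC.card hcov hP hc hω₁ hω₂ hω₃ hω₄ hA1
      (fun y Y f h1 h2 h3 h4 h5 h6 h7 => hAle _ ⟨y, Y, f, h1, h2, h3, h4, h5, h6, h7, rfl⟩)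
  -- `θ`
  let H : Subgroup G' := (Subgroup.center G).comap π
  have hH : ∀ a, a ∈ H ↔ π a ∈ Subgroup.center G := fun a => Iff.rfl
  obtain ⟨a₀, ha₀⟩ := hT.quo.surj g₀
  obtain ⟨θ, hθ, hθs, hθy⟩ := theta hp H (fun a => χ (π a) + γ a) (fun a => y₁ (π a))
    (by
      intro a ha b hb
      change χ (π (a * b)) + γ (a * b) = _
      rw [map_mul, hχ _ ha _ hb, hT.mul_left a b ha]
      ring)
    (by
      intro a b
      refine ⟨?_, ?_⟩
      · rw [hH, map_mul, map_mul, map_mul, map_inv, map_inv]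
        exact hcm _ _
      · change χ (π (a * b * a⁻¹ * b⁻¹)) + γ (a * b * a⁻¹ * b⁻¹) = 0
        rw [hT.comm, map_mul, map_mul, map_mul, map_inv, map_inv]
        exact add_neg_cancel _)
    (by
      intro a
      refine ⟨?_, ?_⟩
      · rw [hH, map_pow]
        exact hPC.pow _
      · change χ (π (a ^ p)) + γ (a ^ p) = y₁ (π a)
        rw [hT.pow hp2, map_pow, hχp, add_zero])
    (fun a ha => hy₁0 _ ha) a₀ (by change y₁ (π a₀) ≠ 0; rw [ha₀]; exact hg₀)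
  have hc'A : (p : ℚ) * A ≤ c' := by
    rw [← hf₁A]
    refine hCYU p k L' G' ρ' (j t) P' c' (fun a => y₁ (π a)) θ (j Y₁) f₁ hp hT.card hT.cov hT.neg
      hT.con ?_ hθ hθs hθy ?_ ?_ hf₁1 hf₁p
    · intro a b
      change y₁ (π (a * b)) = y₁ (π a) + y₁ (π b)
      rw [map_mul, hy₁]
    · rw [← map_pow, ← map_sub, hYf₁, Polynomial.aeval_algHom_apply]
    · intro a
      rw [hT.quo.eqv, hYa₁, map_add, AlgHom.commutes]
  rcases hT.alt with h | ⟨h, _⟩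
  · exfalso
    have hp3 : 3 ≤ p := by
      have h2 := hp.two_le
      omega
    have h1 : (p : ℚ) * (p * A) ≤ (2 * p + 1) * A :=
      le_trans (mul_le_mul_of_nonneg_left hc'A (Nat.cast_nonneg p)) h
    have h2 : p * (p * A) ≤ (2 * p + 1) * A := by exact_mod_cast h1
    have h3 : p * p ≤ 2 * p + 1 := by
      rw [← mul_assoc] at h2
      exact Nat.le_of_mul_le_mul_right h2 hA1
    nlinarith
  · rw [h]
    exact hc'A

end Pool.CND
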