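import Pool.Agent.H37.CNS.Stmts
import Pool.Agent.H1.CNZ.TWI

/-!
# Board `cns`: the twisted cover of an alternating form `ω` vanishing on the centre (used in rows PZ6, PZ7)
-/

set_option autoImplicit false

namespace Pool.CND

open Finset

/-- the twisted cover `ρ'` with group `G'`: all that is needed of it.  `A` bounds the degrees of the
Artin-Schreier polynomials of the homomorphisms `G → F_p` which vanish on the centre -/
structure TwOut (p A : ℕ) {k L L' G G' : Type} [Field k] [Field L] [Algebra k L] [Field L']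
    [Algebra k L'] [Group G] [Group G'] (ρ : G →* (L ≃ₐ[k] L)) (ρ' : G' →* (L' ≃ₐ[k] L')) (t : L)
    (ω : G → G → ZMod p) (π : G' →* G) (z : G') (γ : G' → ZMod p) (j : L →ₐ[k] L')
    (P' : Place k L') (c c' : ℚ) (l : ℕ) : Prop where
  card : ∃ n : ℕ, Nat.card G' = p ^ n
  ker : ∀ a : G', π a = 1 → γ a = 0 → a = 1
  π_z : π z = 1
  γ_z : γ z = 1
  lift : ∀ (g : G) (s : ZMod p), ∃ a : G', π a = g ∧ γ a = s
  mul_left : ∀ a b : G', π a ∈ Subgroup.center G → γ (a * b) = γ a + γ b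
  mul_right : ∀ a b : G', π b ∈ Subgroup.center G → γ (a * b) = γ a + γ b
  comm : ∀ a b : G', γ (a * b * a⁻¹ * b⁻¹) = -ω (π a) (π b)
  pow : p ≠ 2 → ∀ a : G', γ (a ^ p) = 0
  cov : IsCover ρ' (j t)
  quo : Quo ρ' ρ π j
  neg : P'.ord (j t) < 0
  con : IsConductor P' ρ' c'
  l_ne : ram P' ρ' l ≠ {1}
  l_eq : ram P' ρ' (l + 1) = {1}
  le : c ≤ c'
  alt : (p : ℚ) * c' ≤ (2 * p + 1) * A ∨ (c = c' ∧ ∀ a ∈ ram P' ρ' l, γ a = 0)

theorem TwOut.neg_of {k L L' : Type} [Field k] [Field L] [Algebra k L] [Field L'] [Algebra k L']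
    (j : L →ₐ[k] L') (t : L) (P : Place k L') (Q : Place k L) (e : ℕ)
    (hQ : ∀ z : L, z ≠ 0 → (e : ℤ) * Q.ord z = P.ord (j z)) (ht : Transcendental k t)
    (hneg : P.ord (j t) < 0) : Q.ord t < 0 := by
  have ht0 : t ≠ 0 := by
    rintro rfl
    exact ht isAlgebraic_zero
  have h1 := hQ t ht0
  by_contra h2
  push Not at h2
  have h3 : (0 : ℤ) ≤ (e : ℤ) * Q.ord t := mul_nonneg (Int.natCast_nonneg e) h2
  omega

theorem exists_twOut (hALT : S_ALT) (hTWG : S_TWG) (hASG : S_ASG) (hTWC : S_TWC) (hTWB : S_TWB)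
    (hEXI : S_EXI) (hPTR : S_PTR) (hWLD : S_WLD) (hCNV : S_CNV) (hQCC : S_QCC) (hCJC : S_CJC)
    (hCUQ : S_CUQ) (p A : ℕ) (k L G : Type) [Field k] [IsAlgClosed k] [CharP k p] [Field L]
    [Algebra k L] [Group G] [Finite G] (ρ : G →* (L ≃ₐ[k] L)) (t : L) (P : Place k L) (c : ℚ)
    (ω : G → G → ZMod p) (hp : p.Prime) (hG : ∃ n : ℕ, Nat.card G = p ^ n) (hcov : IsCover ρ t)
    (hP : P.ord t < 0) (hc : IsConductor P ρ c)
    (hω₁ : ∀ a b c : G, ω (a * b) c = ω a c + ω b c)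
    (hω₂ : ∀ a b c : G, ω a (b * c) = ω a b + ω a c) (hω₃ : ∀ a : G, ω a a = 0)
    (hω₄ : ∀ a ∈ Subgroup.center G, ∀ b : G, ω a b = 0) (hA : 1 ≤ A)
    (hmax : ∀ (y : G → ZMod p) (Y : L) (f : Polynomial k), (∀ g h : G, y (g * h) = y g + y h) →
      (∀ g ∈ Subgroup.center G, y g = 0) → (∃ g : G, y g ≠ 0) → Y ^ p - Y = Polynomial.aeval t f →
      (∀ g : G, ρ g Y = Y + algebraMap k L (fp k (y g))) → 1 ≤ f.natDegree → ¬ p ∣ f.natDegree →
      f.natDegree ≤ A) :
    ∃ (G' : Type) (_ : Group G') (_ : Finite G') (L' : Type) (_ : Field L') (_ : Algebra k L')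
      (ρ' : G' →* (L' ≃ₐ[k] L')) (π : G' →* G) (z : G') (γ : G' → ZMod p) (j : L →ₐ[k] L')
      (P' : Place k L') (c' : ℚ) (l : ℕ), TwOut p A ρ ρ' t ω π z γ j P' c c' l := by
  classical
  have := Fact.mk hp
  have hch : CharP k p := inferInstance
  obtain ⟨m, x, y, hx, hy, hxy, hωxy⟩ := hALT p G ω hp hω₁ hω₂ hω₃
  obtain ⟨n₀, hn₀⟩ := hG
  -- bounds
  have hgen : ∀ w : G → ZMod p, (∀ g h : G, w (g * h) = w g + w h) →
      (∀ g ∈ Subgroup.center G, w g = 0) → ∃ (W : L) (f : Polynomial k),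
        W ^ p - W = Polynomial.aeval t f ∧
        (∀ g : G, ρ g W = W + algebraMap k L (fp k (w g))) ∧ f.natDegree ≤ A := by
    intro w hw hw0
    obtain ⟨W, f, h1, h2, h3⟩ := hASG p k L G ρ t w hp hcov hw
    refine ⟨W, f, h1, h2, ?_⟩
    rcases h3 with ⟨_, _, rfl⟩ | ⟨h4, h5, h6⟩
    · simp
    · exact hmax w W f hw hw0 h4 h1 h2 h5 h6
  have hx0 : ∀ i, ∀ g ∈ Subgroup.center G, x i g = 0 := fun i g hg =>
    (hxy i g (hω₄ g hg)).1
  have hy0 : ∀ i, ∀ g ∈ Subgroup.center G, y i g = 0 := fun i g hg =>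
    (hxy i g (hω₄ g hg)).2
  choose X f hXf hXa hfA using fun i => hgen (x i) (hx i) (hx0 i)
  choose Y h hYh hYa hhA using fun i => hgen (y i) (hy i) (hy0 i)
  -- the group
  let β : G → G → ZMod p := fun a b => ∑ i, x i a * y i b
  have hβ₁ : ∀ a b c : G, β (a * b) c = β a c + β b c := by
    intro a b c
    change ∑ i, x i (a * b) * y i c = ∑ i, x i a * y i c + ∑ i, x i b * y i c
    rw [← Finset.sum_add_distrib]
    exact Finset.sum_congr rfl fun i _ => by rw [hx, add_mul]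
  have hβ₂ : ∀ a b c : G, β a (b * c) = β a b + β a c := by
    intro a b c
    change ∑ i, x i a * y i (b * c) = ∑ i, x i a * y i b + ∑ i, x i a * y i c
    rw [← Finset.sum_add_distrib]
    exact Finset.sum_congr rfl fun i _ => by rw [hy, mul_add]
  have hβl : ∀ a ∈ Subgroup.center G, ∀ b, β a b = 0 := by
    intro a ha b
    exact Finset.sum_eq_zero fun i _ => by rw [hx0 i a ha, zero_mul]
  have hβr : ∀ b ∈ Subgroup.center G, ∀ a, β a b = 0 := by
    intro b hb a
    exact Finset.sum_eq_zero fun i _ => by rw [hy0 i b hb, mul_zero]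
  have hβω : ∀ a b : G, β a b - β b a = -ω a b := by
    intro a b
    rw [hωxy]
    change ∑ i, x i a * y i b - ∑ i, x i b * y i a = _
    rw [← Finset.sum_sub_distrib, ← Finset.sum_neg_distrib]
    exact Finset.sum_congr rfl fun i _ => by ring
  obtain ⟨G', _, _, π, z, γ, hπ, hker, hz, hzc, hγz, hγ, hker', hlift, hcard⟩ :=
    hTWG p G β hp hβ₁ hβ₂
  have hG' : Nat.card G' = p ^ (n₀ + 1) := by rw [hcard, hn₀, pow_succ, mul_comm]
  -- the cover
  have hD : TWD p m ρ t x y X Y f h π z γ :=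
    { cov := hcov
      x_mul := hx
      y_mul := hy
      X_eq := hXf
      Y_eq := hYh
      X_act := hXa
      Y_act := hYa
      surj := hπ
      ker := hker
      order := hz
      central := hzc
      γ_z := hγz
      γ_mul := hγ }
  obtain ⟨L', _, _, ρ', j, Z, α, hcov', hquo, hZ, hZa⟩ :=
    hTWC p m k L G G' ρ t x y X Y f h π z γ hp hD
  -- a place at infinity
  obtain ⟨hfin, hsep⟩ := TWI.fin_sep ρ' _ hcov'
  obtain ⟨P', hP'⟩ := hEXI k L' _ hcov'.trans hfin hsep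
  have hram : ram P' ρ' 1 = Set.univ := hPTR p k L' G' ρ' (j t) P' hp hch ⟨_, hG'⟩ hcov' hP'
  have hz1 : z ≠ 1 := by
    rintro rfl
    rw [orderOf_one] at hz
    exact hp.one_lt.ne hz
  have hzfix : Fixes P' (ρ' z) := by
    have : z ∈ ram P' ρ' 1 := by rw [hram]; exact Set.mem_univ z
    exact this.1
  obtain ⟨c', hc'⟩ := TWI.exists_conductor hWLD hCNV p _ hp hch hG' P' ρ' hcov'.inj z hz1 hzfix
  obtain ⟨l, hl, hl1, hl2⟩ := id hc'
  obtain ⟨P₁, e, _, hP₁, hle, hlast⟩ :=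
    hQCC p k L' L G' G ρ' ρ π j t P' c' hp hch ⟨_, hG'⟩ hcov' hcov hquo hc'
  have hP₁neg : P₁.ord t < 0 := TwOut.neg_of j t P' P₁ e hP₁ hcov.trans hP'
  have hcP₁ : IsConductor P₁ ρ c := hCJC k L G ρ t P P₁ c hcov hP hP₁neg hc
  -- values of `γ`
  have hβ1 : ∀ a, β 1 a = 0 := fun a => hβl 1 (Subgroup.one_mem _) a
  have hβ1' : ∀ a, β a 1 = 0 := fun a => hβr 1 (Subgroup.one_mem _) a
  have hβi : ∀ a b, β a⁻¹ b = -β a b := by
    intro a b
    have := hβ₁ a a⁻¹ b
    rw [mul_inv_cancel, hβ1] at this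
    exact (neg_eq_of_add_eq_zero_right this.symm).symm
  refine ⟨G', inferInstance, inferInstance, L', inferInstance, inferInstance, ρ', π, z, γ, j, P',
    c', l,
    { card := ⟨_, hG'⟩
      ker := hker'
      π_z := (hker z).2 (Subgroup.mem_zpowers z)
      γ_z := hγz
      lift := hlift
      mul_left := fun a b ha => by rw [hγ, hβl _ ha, add_zero]
      mul_right := fun a b hb => by rw [hγ, hβr _ hb, add_zero]
      comm := ?_
      pow := ?_
      cov := hcov'
      quo := hquo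
      neg := hP'
      con := hc'
      l_ne := hl
      l_eq := hl1
      le := hle c hcP₁
      alt := ?_ }⟩
  · intro a b
    have h1 : γ (a * b) = γ (a * b * a⁻¹ * b⁻¹) + γ (b * a) +
        β (π (a * b * a⁻¹ * b⁻¹)) (π (b * a)) := by
      have e : a * b = (a * b * a⁻¹ * b⁻¹) * (b * a) := by group
      conv_lhs => rw [e]
      exact hγ _ _
    have h2 : β (π (a * b * a⁻¹ * b⁻¹)) (π (b * a)) = 0 := by
      rw [map_mul, map_mul, map_mul, map_inv, map_inv, hβ₁, hβ₁, hβ₁, hβi, hβi]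
      ring
    have h3 : γ (a * b) = γ a + γ b + β (π a) (π b) := hγ a b
    have h4 : γ (b * a) = γ b + γ a + β (π b) (π a) := hγ b a
    rw [h2, h3, h4] at h1
    rw [← hβω]
    linear_combination -h1
  · intro hp2 a
    have h1 : ∀ n : ℕ, γ (a ^ n) = n * γ a + (n.choose 2 : ℕ) * β (π a) (π a) := by
      intro n
      induction n with
      | zero =>
        have h0 := hγ 1 1
        have h00 : β (π (1 : G')) (π (1 : G')) = 0 := by rw [map_one]; exact hβ1 1
        change γ (1 * 1) = γ 1 + γ 1 + β (π (1 : G')) (π (1 : G')) at h0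
        rw [h00, mul_one, add_zero] at h0
        have h01 : γ 1 = 0 := by
          have := h0.symm
          rwa [add_eq_left] at this
        simp [h01]
      | succ n ih =>
        have h2 : β (π (a ^ n)) (π a) = n * β (π a) (π a) := by
          clear ih
          induction n with
          | zero => rw [pow_zero, map_one, hβ1]; simp
          | succ n ih =>
            rw [pow_succ, map_mul, hβ₁, ih]
            push_cast
            ring
        have h3 := hγ (a ^ n) a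
        change γ (a ^ n * a) = γ (a ^ n) + γ a + β (π (a ^ n)) (π a) at h3
        rw [pow_succ, h3, ih, h2, Nat.choose_succ_succ' n 1, Nat.choose_one_right]
        push_cast
        ring
    rw [h1 p]
    have h5 : ((p.choose 2 : ℕ) : ZMod p) = 0 := by
      rw [ZMod.natCast_eq_zero_iff]
      exact hp.dvd_choose_self (by norm_num) (lt_of_le_of_ne hp.two_le (Ne.symm hp2))
    rw [h5]
    simp
  · by_cases hR : ∃ a ∈ ram P' ρ' l, ¬ (γ a = 0 ∧ ∀ i, x i (π a) = 0 ∧ y i (π a) = 0)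
    · left
      exact hTWB p m A k L L' G G' ρ t x y X Y f h π z γ ρ' j Z α P' c' hp ⟨_, hG'⟩ hD hcov' hquo
        hZ hZa hA (fun i => ⟨hfA i, hhA i⟩) hP' hc' l hl1 hR
    · right
      push Not at hR
      have hR' : ∀ a ∈ ram P' ρ' l, γ a = 0 := fun a ha => (hR a ha).1
      refine ⟨?_, hR'⟩
      obtain ⟨a, ha, ha1⟩ := TWI.exists_of_ram_ne P' ρ' l hl
      have hπa : π a ≠ 1 := fun h1 => ha1 (hker' a h1 (hR' a ha))
      exact hCUQ k L G ρ P₁ c c' hcP₁ (hlast l hl1 ⟨a, ha, hπa⟩)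

end Pool.CND
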